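import Pool.Agent.W_198aa6_h88.PMain

set_option autoImplicit false

namespace Pool.Agent.Results.MP_198aa6_nt.AlmostMaximalSpread

/-- There is a constant `C` such that for all `N ≥ 2`, at most `C (log N)^23` of the integers `2 ≤ n ≤ N` have a
factorisation of `n!` into at least two distinct positive integers any two of which differ by less than
`n - 5 ⌊log_2 n⌋ - 4`, i.e. `f(n) < n - 5 ⌊log_2 n⌋ - 4`. -/
theorem result : ∃ C : ℝ, ∀ N : ℕ, 2 ≤ N →
    (Set.ncard {n : ℕ | n ≤ N ∧ 2 ≤ n ∧ ∃ A : Finset ℕ, 2 ≤ A.card ∧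
      ∏ a ∈ A, a = Nat.factorial n ∧ ∀ a ∈ A, ∀ b ∈ A, b + 5 * Nat.log 2 n + 4 < a + n} : ℝ) ≤
    C * (Real.log N) ^ 23 :=
  Fac88.mainP

end Pool.Agent.Results.MP_198aa6_nt.AlmostMaximalSpread
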