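import Pool.Agent.W_198aa6_h46.FMain

namespace Pool.Agent.Results.MP_198aa6_nt.PolylogFixedSpread

/-- There is a constant `C` such that for all `m` and all `x ≥ 2`, at most `C 4^m (log x)^3` of the integers
`2 ≤ n ≤ x` have a factorisation of `n!` into at least two distinct positive integers any two of which differ
by at most `m`, i.e. `f(n) ≤ m`. -/
theorem result : ∃ C : ℝ, ∀ m x : ℕ, 2 ≤ x →
    (Set.ncard {n : ℕ | n ≤ x ∧ 2 ≤ n ∧ ∃ A : Finset ℕ, 2 ≤ A.card ∧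
      ∏ a ∈ A, a = Nat.factorial n ∧ ∀ a ∈ A, ∀ b ∈ A, b ≤ a + m} : ℝ) ≤
    C * 4 ^ m * (Real.log x) ^ 3 :=
  Fac46.mainF

end Pool.Agent.Results.MP_198aa6_nt.PolylogFixedSpread
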